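import Pool.Agent.Helper49.CT.Cyl

/-!
# Singular points at infinity
-/

set_option autoImplicit false

namespace Pool.Agent.Helper49.CT

open Pool.Agent.Helper65.CC Pool.Agent.Helper87.CC Pool.Agent.Helper65.CC.KFn
open Pool.Agent.Helper29.CQ Pool.Agent.Helper71.CT
open Polynomial

variable {K : Type} [Field K] {G : ∀ (R : Type) [CommRing R] [Algebra K R], Prop}

/-- the coefficients of the quartic -/
noncomputable def pI (α : K) (a₂ a₄ a₆ : K[X]) : Fin 5 → K[X] := ![a₆, a₄, a₂, C α, 0]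

theorem pI_deg (α : K) (a₂ a₄ a₆ : K[X]) (d2 : a₂.natDegree ≤ 2) (d4 : a₄.natDegree ≤ 3)
    (d6 : a₆.natDegree ≤ 4) : ∀ j : Fin 5, (pI α a₂ a₄ a₆ j).natDegree ≤ 4 - j := by
  intro j
  fin_cases j
  · exact d6
  · exact d4
  · exact d2
  · exact (natDegree_C _).le.trans (Nat.zero_le _)
  · exact natDegree_zero.le

theorem F4_pI (α : K) (a₂ a₄ a₆ : K[X]) (d2 : a₂.natDegree ≤ 2) (d4 : a₄.natDegree ≤ 3)
    (d6 : a₆.natDegree ≤ 4) {R : Type} [CommRing R] [Algebra K R] (x y : R) :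
    F4 (cc (pI α a₂ a₄ a₆)) x y 1 = Dv α a₂ a₄ a₆ x y := by
  rw [F4_cc _ (pI_deg α a₂ a₄ a₆ d2 d4 d6)]
  change aeval x a₆ + aeval x a₄ * y + aeval x a₂ * y ^ 2 + aeval x (C α) * y ^ 3 +
    aeval x (0 : K[X]) * y ^ 4 = _
  rw [aeval_C, map_zero, Dv]
  ring

/-- **a singular point at infinity** -/
theorem cone_inf0 [IsAlgClosed K] (hG : GOps K G)
    (geo : ∀ c : ℕ → ℕ → K, (BC (bin4 (lead c) (X : K[X]) 1)).Mem G → ¬ Cyl' c → (V c).Mem G)
    (α : K) (hα : α ≠ 0) (a₂ a₄ a₆ : K[X]) (d2 : a₂.natDegree ≤ 2)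
    (d4 : a₄.natDegree ≤ 3) (d6 : a₆.natDegree ≤ 4) (hcyl : ¬ Cyl6 α a₂ a₄ a₆) :
    (W α a₂ a₄ a₆).Mem G := by
  have hd := pI_deg α a₂ a₄ a₆ d2 d4 d6
  have hF : ∀ (R : Type) [CommRing R] [Algebra K R] (x y : R),
      F4 (cc (pI α a₂ a₄ a₆)) x y 1 = Dv α a₂ a₄ a₆ x y :=
    fun R _ _ x y => F4_pI α a₂ a₄ a₆ d2 d4 d6 x y
  have hV : (V (cc (pI α a₂ a₄ a₆))).Mem G := by
    refine geo _ ?_ ?_
    · rw [lead_cc]
      have e1 : C ((pI α a₂ a₄ a₆ 4).coeff 0) + C ((pI α a₂ a₄ a₆ 3).coeff 1) * X +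
          C ((pI α a₂ a₄ a₆ 2).coeff 2) * X ^ 2 + C ((pI α a₂ a₄ a₆ 1).coeff 3) * X ^ 3 +
          C ((pI α a₂ a₄ a₆ 0).coeff 4) * X ^ 4 =
          X ^ 2 * (C (a₂.coeff 2) + C (a₄.coeff 3) * X + C (a₆.coeff 4) * X ^ 2) := by
        change C ((0 : K[X]).coeff 0) + C ((C α : K[X]).coeff 1) * X + C (a₂.coeff 2) * X ^ 2 +
          C (a₄.coeff 3) * X ^ 3 + C (a₆.coeff 4) * X ^ 4 = _
        rw [coeff_zero, coeff_C_of_ne_zero one_ne_zero, C_0]
        ring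
      rw [e1]
      refine BC.sq_mul hG X X_ne_zero (BC.deg_two hG _ ?_)
      refine natDegree_add_le_of_degree_le (natDegree_add_le_of_degree_le ?_ ?_) ?_
      · exact natDegree_C _ |>.le.trans (Nat.zero_le _)
      · exact (natDegree_C_mul_le _ _).trans (natDegree_X_le.trans one_le_two)
      · exact (natDegree_C_mul_le _ _).trans (natDegree_X_pow_le _)
    · rintro ⟨q₀, q₁, hne, hq⟩
      by_cases h0 : q₀ = 0
      · subst h0
        have h2 := cyl_vert _ hd hq 0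
        change (C α : K[X]).eval 0 * q₁ ^ 3 = 0 at h2
        rw [eval_C] at h2
        rcases mul_eq_zero.1 h2 with h | h
        · exact hα h
        · exact (hne.resolve_left (fun h => h rfl)) (pow_eq_zero_iff three_ne_zero |>.1 h)
      · refine hcyl (Or.inl ⟨hα, C (q₁ / q₀) * X, ?_, a₂.eval 0, a₄.eval 0, a₆.eval 0,
          fun R _ _ x y => ?_⟩)
        · exact (natDegree_C_mul_le _ _).trans (natDegree_X_le.trans one_le_two)
        · have h1 := cyl_elim _ h0 hq R x y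
          rw [hF, hF] at h1
          rw [map_mul, aeval_C, aeval_X, h1]
          exact Dv_zero _ _ _ _ _ _
  refine Mem.of_iso ?_ hV
  exact
    { hom := fun {R} _ _ x => ⟨x.1, by
        have h1 : x.1.2.2 ^ 2 - Dv α a₂ a₄ a₆ x.1.1 x.1.2.1 = 0 := x.2
        change x.1.2.2 ^ 2 - F4 (cc (pI α a₂ a₄ a₆)) x.1.1 x.1.2.1 1 = 0
        rw [hF]
        exact h1⟩
      inv := fun {R} _ _ x => ⟨x.1, by
        have h1 : x.1.2.2 ^ 2 - F4 (cc (pI α a₂ a₄ a₆)) x.1.1 x.1.2.1 1 = 0 := x.2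
        rw [hF] at h1
        exact h1⟩
      inv_hom := fun _ => rfl
      hom_inv := fun _ => rfl
      nat := fun _ _ => rfl }

end Pool.Agent.Helper49.CT
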