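import Pool.Agent.Helper49.CT.Cone

/-!
# Translations
-/

set_option autoImplicit false

namespace Pool.Agent.Helper49.CT

open Pool.Agent.Helper65.CC Pool.Agent.Helper87.CC Pool.Agent.Helper65.CC.KFn
open Pool.Agent.Helper29.CQ Pool.Agent.Helper71.CT
open Polynomial

variable {K : Type} [Field K] {G : ∀ (R : Type) [CommRing R] [Algebra K R], Prop}

/-- translations of the line -/
theorem BC_shift (h : K[X]) (c : K) (H : (BC h).Mem G) : (BC (h.comp (X + C c))).Mem G := by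
  have key : ∀ (R : Type) [CommRing R] [Algebra K R] (x : R),
      aeval x (h.comp (X + C c)) = aeval (x + algebraMap K R c) h := by
    intro R _ _ x
    rw [aeval_comp, map_add, aeval_X, aeval_C]
  refine Mem.of_iso ?_ H
  exact
    { hom := fun {R} _ _ x => ⟨(x.1.1 + algebraMap K R c, x.1.2), by
        have h1 : x.1.2 ^ 2 - aeval x.1.1 (h.comp (X + C c)) = 0 := x.2
        rw [key] at h1
        exact h1⟩
      inv := fun {R} _ _ y => ⟨(y.1.1 - algebraMap K R c, y.1.2), by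
        have h1 : y.1.2 ^ 2 - aeval y.1.1 h = 0 := y.2
        change y.1.2 ^ 2 - aeval (y.1.1 - algebraMap K R c) (h.comp (X + C c)) = 0
        rw [key, sub_add_cancel]
        exact h1⟩
      inv_hom := fun {R} _ _ x => Subtype.ext (Prod.ext (add_sub_cancel_right _ _) rfl)
      hom_inv := fun {R} _ _ y => Subtype.ext (Prod.ext (sub_add_cancel _ _) rfl)
      nat := fun {R S} _ _ _ _ f x => Subtype.ext (Prod.ext (by
        change f (x.1.1 + algebraMap K R c) = f x.1.1 + algebraMap K S c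
        rw [map_add, AlgHom.commutes]) rfl) }

/-! ### Vertical translations -/

section Vert

variable (α : K) (a₂ a₄ a₆ q : K[X])

/-- the new coefficients -/
noncomputable def s2 : K[X] := a₂ + C (3 * α) * q

/-- the new coefficients -/
noncomputable def s4 : K[X] := a₄ + C 2 * a₂ * q + C (3 * α) * q ^ 2

/-- the new coefficients -/
noncomputable def s6 : K[X] := C α * q ^ 3 + a₂ * q ^ 2 + a₄ * q + a₆

theorem Dv_vert {R : Type} [CommRing R] [Algebra K R] (x y : R) :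
    Dv α (s2 α a₂ q) (s4 α a₂ a₄ q) (s6 α a₂ a₄ a₆ q) x y = Dv α a₂ a₄ a₆ x (y + aeval x q) := by
  simp only [Dv, s2, s4, s6, map_add, map_mul, map_pow, aeval_C, map_ofNat]
  ring

/-- vertical translations -/
noncomputable def vert :
    Iso (W α a₂ a₄ a₆) (W α (s2 α a₂ q) (s4 α a₂ a₄ q) (s6 α a₂ a₄ a₆ q)) where
  hom {R} _ _ x := ⟨(x.1.1, x.1.2.1 - aeval x.1.1 q, x.1.2.2), by
    have h : x.1.2.2 ^ 2 - Dv α a₂ a₄ a₆ x.1.1 x.1.2.1 = 0 := x.2
    change x.1.2.2 ^ 2 - Dv α (s2 α a₂ q) (s4 α a₂ a₄ q) (s6 α a₂ a₄ a₆ q) x.1.1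
      (x.1.2.1 - aeval x.1.1 q) = 0
    rw [Dv_vert, sub_add_cancel]
    exact h⟩
  inv {R} _ _ x := ⟨(x.1.1, x.1.2.1 + aeval x.1.1 q, x.1.2.2), by
    have h : x.1.2.2 ^ 2 - Dv α (s2 α a₂ q) (s4 α a₂ a₄ q) (s6 α a₂ a₄ a₆ q) x.1.1 x.1.2.1 = 0 :=
      x.2
    rw [Dv_vert] at h
    exact h⟩
  inv_hom {R} _ _ x := Subtype.ext (Prod.ext rfl (Prod.ext (sub_add_cancel _ _) rfl))
  hom_inv {R} _ _ x := Subtype.ext (Prod.ext rfl (Prod.ext (add_sub_cancel_right _ _) rfl))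
  nat {R S} _ _ _ _ f x := Subtype.ext (Prod.ext rfl (Prod.ext (by
    change f (x.1.2.1 - aeval x.1.1 q) = f x.1.2.1 - aeval (f x.1.1) q
    rw [map_sub, ← aeval_algHom_apply]) rfl))

variable {α a₂ a₄ a₆ q}

theorem natDegree_s2 (d2 : a₂.natDegree ≤ 2) (dq : q.natDegree ≤ 2) :
    (s2 α a₂ q).natDegree ≤ 2 :=
  natDegree_add_le_of_degree_le d2 ((natDegree_C_mul_le _ _).trans dq)

theorem natDegree_s4 (d2 : a₂.natDegree ≤ 2) (d4 : a₄.natDegree ≤ 4) (dq : q.natDegree ≤ 2) :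
    (s4 α a₂ a₄ q).natDegree ≤ 4 := by
  refine natDegree_add_le_of_degree_le (natDegree_add_le_of_degree_le d4 ?_) ?_
  · exact natDegree_mul_le_of_le ((natDegree_C_mul_le _ _).trans d2) dq
  · exact (natDegree_C_mul_le _ _).trans (natDegree_pow_le.trans (by omega))

theorem natDegree_s6 (d2 : a₂.natDegree ≤ 2) (d4 : a₄.natDegree ≤ 4) (d6 : a₆.natDegree ≤ 6)
    (dq : q.natDegree ≤ 2) : (s6 α a₂ a₄ a₆ q).natDegree ≤ 6 := by
  refine natDegree_add_le_of_degree_le (natDegree_add_le_of_degree_le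
    (natDegree_add_le_of_degree_le ?_ ?_) ?_) d6
  · exact (natDegree_C_mul_le _ _).trans (natDegree_pow_le.trans (by omega))
  · exact natDegree_mul_le_of_le d2 (natDegree_pow_le.trans (by omega) : (q ^ 2).natDegree ≤ 4)
  · exact natDegree_mul_le_of_le d4 dq

theorem coeff_q2 (dq : q.natDegree ≤ 2) : (q ^ 2).coeff 4 = q.coeff 2 ^ 2 :=
  coeff_pow_of_natDegree_le (n := 2) (m := 2) dq

theorem coeff_q3 (dq : q.natDegree ≤ 2) : (q ^ 3).coeff 6 = q.coeff 2 ^ 3 :=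
  coeff_pow_of_natDegree_le (n := 2) (m := 3) dq

theorem top_vert (d2 : a₂.natDegree ≤ 2) (d4 : a₄.natDegree ≤ 4) (dq : q.natDegree ≤ 2) :
    top α (s2 α a₂ q) (s4 α a₂ a₄ q) (s6 α a₂ a₄ a₆ q) =
      (top α a₂ a₄ a₆).comp (X + C (q.coeff 2)) := by
  have e1 : (a₂ * q).coeff 4 = a₂.coeff 2 * q.coeff 2 := coeff_mul_add_eq_of_natDegree_le d2 dq
  have e2 : (a₄ * q).coeff 6 = a₄.coeff 4 * q.coeff 2 := coeff_mul_add_eq_of_natDegree_le d4 dq
  have dq2 : (q ^ 2).natDegree ≤ 4 := natDegree_pow_le.trans (by omega)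
  have e3 : (a₂ * q ^ 2).coeff 6 = a₂.coeff 2 * (q ^ 2).coeff 4 :=
    coeff_mul_add_eq_of_natDegree_le d2 dq2
  have c2 : (s2 α a₂ q).coeff 2 = a₂.coeff 2 + 3 * α * q.coeff 2 := by
    rw [s2, coeff_add, coeff_C_mul]
  have c4 : (s4 α a₂ a₄ q).coeff 4 = a₄.coeff 4 + 2 * a₂.coeff 2 * q.coeff 2 +
      3 * α * q.coeff 2 ^ 2 := by
    rw [s4, coeff_add, coeff_add, coeff_C_mul, coeff_q2 dq, mul_assoc, coeff_C_mul, e1]
    ring
  have c6 : (s6 α a₂ a₄ a₆ q).coeff 6 = α * q.coeff 2 ^ 3 + a₂.coeff 2 * q.coeff 2 ^ 2 +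
      a₄.coeff 4 * q.coeff 2 + a₆.coeff 6 := by
    rw [s6, coeff_add, coeff_add, coeff_add, coeff_C_mul, coeff_q3 dq, e3, coeff_q2 dq, e2]
  simp only [top, c2, c4, c6, add_comp, mul_comp, pow_comp, C_comp, X_comp, C_add, C_mul, C_pow,
    map_ofNat]
  ring

theorem cyl_vert6 (hα : α ≠ 0) (dq : q.natDegree ≤ 2) (h : ¬ Cyl6 α a₂ a₄ a₆) :
    ¬ Cyl6 α (s2 α a₂ q) (s4 α a₂ a₄ q) (s6 α a₂ a₄ a₆ q) := by
  rintro (⟨-, q', dq', b2, b4, b6, hq'⟩ | ⟨h0, -, -⟩)
  · refine h (Or.inl ⟨hα, q' + q, natDegree_add_le_of_degree_le dq' dq, b2, b4, b6,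
      fun R _ _ x y => ?_⟩)
    rw [← hq', Dv_vert, map_add, add_assoc]
  · exact hα h0

end Vert

/-! ### Horizontal translations -/

section Horiz

variable (α : K) (a₂ a₄ a₆ : K[X]) (c : K)

theorem aeval_sh (g : K[X]) {R : Type} [CommRing R] [Algebra K R] (x : R) :
    aeval x (g.comp (X + C c)) = aeval (x + algebraMap K R c) g := by
  rw [aeval_comp, map_add, aeval_X, aeval_C]

theorem Dv_horiz {R : Type} [CommRing R] [Algebra K R] (x y : R) :
    Dv α (a₂.comp (X + C c)) (a₄.comp (X + C c)) (a₆.comp (X + C c)) x y =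
      Dv α a₂ a₄ a₆ (x + algebraMap K R c) y := by
  simp only [Dv, aeval_sh]

/-- horizontal translations -/
noncomputable def horiz : Iso (W α a₂ a₄ a₆)
    (W α (a₂.comp (X + C c)) (a₄.comp (X + C c)) (a₆.comp (X + C c))) where
  hom {R} _ _ x := ⟨(x.1.1 - algebraMap K R c, x.1.2.1, x.1.2.2), by
    have h : x.1.2.2 ^ 2 - Dv α a₂ a₄ a₆ x.1.1 x.1.2.1 = 0 := x.2
    change x.1.2.2 ^ 2 - Dv α (a₂.comp (X + C c)) (a₄.comp (X + C c)) (a₆.comp (X + C c))
      (x.1.1 - algebraMap K R c) x.1.2.1 = 0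
    rw [Dv_horiz, sub_add_cancel]
    exact h⟩
  inv {R} _ _ x := ⟨(x.1.1 + algebraMap K R c, x.1.2.1, x.1.2.2), by
    have h : x.1.2.2 ^ 2 - Dv α (a₂.comp (X + C c)) (a₄.comp (X + C c)) (a₆.comp (X + C c))
      x.1.1 x.1.2.1 = 0 := x.2
    rw [Dv_horiz] at h
    exact h⟩
  inv_hom {R} _ _ x := Subtype.ext (Prod.ext (sub_add_cancel _ _) rfl)
  hom_inv {R} _ _ x := Subtype.ext (Prod.ext (add_sub_cancel_right _ _) rfl)
  nat {R S} _ _ _ _ f x := Subtype.ext (Prod.ext (by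
    change f (x.1.1 - algebraMap K R c) = f x.1.1 - algebraMap K S c
    rw [map_sub, AlgHom.commutes]) rfl)

theorem natDegree_sh (g : K[X]) (n : ℕ) (h : g.natDegree ≤ n) :
    (g.comp (X + C c)).natDegree ≤ n := by
  rw [natDegree_comp, natDegree_X_add_C, mul_one]
  exact h

theorem coeff_sh (g : K[X]) (n : ℕ) (h : g.natDegree ≤ n) :
    (g.comp (X + C c)).coeff n = g.coeff n := by
  have e1 : (C (g.coeff n) * X ^ n + (g.erase n)) = g := by
    rw [C_mul_X_pow_eq_monomial, monomial_add_erase]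
  by_cases hn : n = 0
  · subst hn
    obtain ⟨b, rfl⟩ := natDegree_eq_zero.1 (Nat.le_zero.1 h)
    rw [C_comp]
  · have h1 : (g.erase n).natDegree < n := by
      refine lt_of_le_of_ne ((natDegree_le_natDegree (degree_erase_le g n)).trans h) ?_
      intro h2
      have h3 : (g.erase n).leadingCoeff = 0 := by
        rw [leadingCoeff, h2]
        exact erase_same g n
      have h4 := leadingCoeff_eq_zero.1 h3
      rw [h4, natDegree_zero] at h2
      exact hn h2.symm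
    have h2 : ((g.erase n).comp (X + C c)).coeff n = 0 := by
      refine coeff_eq_zero_of_natDegree_lt ?_
      rwa [natDegree_comp, natDegree_X_add_C, mul_one]
    conv_lhs => rw [← e1]
    rw [add_comp, mul_comp, C_comp, pow_comp, X_comp, coeff_add, coeff_C_mul, h2,
      coeff_X_add_C_pow, Nat.sub_self, pow_zero, Nat.choose_self]
    simp

variable {α a₂ a₄ a₆}

theorem top_horiz (d2 : a₂.natDegree ≤ 2) (d4 : a₄.natDegree ≤ 4) (d6 : a₆.natDegree ≤ 6) :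
    top α (a₂.comp (X + C c)) (a₄.comp (X + C c)) (a₆.comp (X + C c)) = top α a₂ a₄ a₆ := by
  simp only [top, coeff_sh c _ _ d2, coeff_sh c _ _ d4, coeff_sh c _ _ d6]

theorem cyl_horiz6 (hα : α ≠ 0) (h : ¬ Cyl6 α a₂ a₄ a₆) :
    ¬ Cyl6 α (a₂.comp (X + C c)) (a₄.comp (X + C c)) (a₆.comp (X + C c)) := by
  rintro (⟨-, q', dq', b2, b4, b6, hq'⟩ | ⟨h0, -, -⟩)
  · refine h (Or.inl ⟨hα, q'.comp (X + C (-c)), natDegree_sh (-c) _ _ dq', b2, b4, b6,
      fun R _ _ x y => ?_⟩)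
    have h1 := hq' R (x + algebraMap K R (-c)) y
    rw [Dv_horiz] at h1
    have e1 : x + algebraMap K R (-c) + algebraMap K R c = x := by
      rw [map_neg]
      ring
    rw [e1] at h1
    rw [aeval_sh, h1]
    simp only [Dv, aeval_C]
  · exact hα h0

end Horiz

end Pool.Agent.Helper49.CT
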