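import Pool.Agent.Helper49.CT.Sing
import Pool.Agent.Helper29.CQ.Corr

/-!
# Tritangent sections
-/

set_option autoImplicit false

namespace Pool.Agent.Helper49.CT

open Pool.Agent.Helper65.CC Pool.Agent.Helper87.CC Pool.Agent.Helper65.CC.KFn
open Pool.Agent.Helper29.CQ Pool.Agent.Helper71.CT
open Polynomial

variable {K : Type} [Field K] {G : ∀ (R : Type) [CommRing R] [Algebra K R], Prop}

/-! ### Curves `b(t) x + c(t) = 0` -/

theorem A1_opn [IsAlgClosed K] (hG : GOps K G) (b : K[X]) (hb : b ≠ 0) :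
    ((A1 K).opn (polyC (⟨fun x => x, fun _ _ => rfl⟩ : Coord (A1 K)) b)).Mem G := by
  refine mem_opn_poly hG.toKOps (A1 K) _ b hb (mem_A1 hG) fun a => ?_
  refine Mem.of_iso (F' := pnt K) ?_ (mem_pnt hG)
  exact
    { hom := fun _ => ()
      inv := fun {R} _ _ _ => ⟨algebraMap K R a, sub_self _⟩
      inv_hom := fun {R} _ _ x => by
        have h5 : (show R from x.1) - algebraMap K R a = 0 := x.2
        exact Subtype.ext (sub_eq_zero.1 h5).symm
      hom_inv := fun _ => rfl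
      nat := fun _ _ => rfl }

theorem mem_lin [IsAlgClosed K] (hG : GOps K G) (b c : K[X]) : (Gam 0 b c).Mem G := by
  by_cases hb : b = 0
  · subst hb
    by_cases hc : c = 0
    · subst hc
      refine Mem.of_iso (F' := A2 K) ?_ (mem_A2 hG)
      exact
        { hom := fun x => x.1
          inv := fun {R} _ _ x => ⟨x, by
            change aeval x.1 (0 : K[X]) * x.2 ^ 2 + aeval x.1 (0 : K[X]) * x.2 +
              aeval x.1 (0 : K[X]) = 0
            rw [map_zero]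
            ring⟩
          inv_hom := fun _ => rfl
          hom_inv := fun _ => rfl
          nat := fun _ _ => rfl }
    · refine mem_fibres hG.toKOps _ _ (Gam.t 0 0 c) c hc rfl (Gam.fib hG 0 0 c) ?_
      refine Mem.of_trivial hG.toKOps fun A _ _ x => ?_
      have h1 : aeval x.1.1.1 (0 : K[X]) * x.1.1.2 ^ 2 + aeval x.1.1.1 (0 : K[X]) * x.1.1.2 +
              aeval x.1.1.1 c = 0 := x.1.2
      have h2 : IsUnit (aeval x.1.1.1 c) := x.2
      rw [map_zero, zero_mul, zero_mul, zero_add, zero_add] at h1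
      rw [h1] at h2
      exact subsingleton_of_zero_eq_one (isUnit_zero_iff.1 h2)
  · refine mem_fibres hG.toKOps _ _ (Gam.t 0 b c) b hb rfl (Gam.fib hG 0 b c) ?_
    refine Mem.of_iso ?_ (A1_opn hG b hb)
    exact
      { hom := fun x => ⟨x.1.1.1, x.2⟩
        inv := fun {R} _ _ y => ⟨⟨(y.1, -aeval (show R from y.1) c *
            Ring.inverse (aeval (show R from y.1) b)), by
          have h5 : IsUnit (aeval (show R from y.1) b) := y.2
          have h6 := mul_inv' h5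
          change aeval (show R from y.1) (0 : K[X]) * (-aeval (show R from y.1) c *
            Ring.inverse (aeval (show R from y.1) b)) ^ 2 + aeval (show R from y.1) b *
            (-aeval (show R from y.1) c * Ring.inverse (aeval (show R from y.1) b)) +
            aeval (show R from y.1) c = 0
          rw [map_zero]
          linear_combination (-aeval (show R from y.1) c) * h6⟩, y.2⟩
        inv_hom := fun {R} _ _ x => by
          have h5 : IsUnit (aeval x.1.1.1 b) := x.2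
          have h6 := mul_inv' h5
          have h1 : aeval x.1.1.1 (0 : K[X]) * x.1.1.2 ^ 2 + aeval x.1.1.1 b * x.1.1.2 +
              aeval x.1.1.1 c = 0 := x.1.2
          rw [map_zero] at h1
          refine Subtype.ext (Subtype.ext (Prod.ext rfl ?_))
          change -aeval x.1.1.1 c * Ring.inverse (aeval x.1.1.1 b) = x.1.1.2
          linear_combination x.1.1.2 * h6 - Ring.inverse (aeval x.1.1.1 b) * h1
        hom_inv := fun _ => rfl
        nat := fun _ _ => rfl }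

/-! ### The quartic -/

/-- the coefficients of the quartic -/
noncomputable def pT (α : K) (a₂ a₄ r : K[X]) : Fin 5 → K[X] :=
  ![a₂ ^ 2 - C (4 * α) * a₄, C (8 * α) * r, C (-2) * a₂, 0, 1]

theorem pT_deg (α : K) (a₂ a₄ r : K[X]) (d2 : a₂.natDegree ≤ 2) (d4 : a₄.natDegree ≤ 4)
    (dr : r.natDegree ≤ 3) : ∀ j : Fin 5, (pT α a₂ a₄ r j).natDegree ≤ 4 - j := by
  intro j
  fin_cases j
  · change (a₂ ^ 2 - C (4 * α) * a₄).natDegree ≤ 4
    refine (natDegree_sub_le _ _).trans (max_le ?_ ?_)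
    · exact natDegree_pow_le.trans (by omega)
    · exact (natDegree_C_mul_le _ _).trans d4
  · exact (natDegree_C_mul_le _ _).trans dr
  · exact (natDegree_C_mul_le _ _).trans d2
  · exact natDegree_zero.le.trans (Nat.zero_le _)
  · exact natDegree_one.le

theorem F4_pT (α : K) (a₂ a₄ r : K[X]) (d2 : a₂.natDegree ≤ 2) (d4 : a₄.natDegree ≤ 4)
    (dr : r.natDegree ≤ 3) {R : Type} [CommRing R] [Algebra K R] (x t : R) :
    F4 (cc (pT α a₂ a₄ r)) x t 1 = (aeval x a₂ - t ^ 2) ^ 2 -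
      4 * algebraMap K R α * (aeval x a₄ - 2 * aeval x r * t) := by
  rw [F4_cc _ (pT_deg α a₂ a₄ r d2 d4 dr)]
  change aeval x (a₂ ^ 2 - C (4 * α) * a₄) + aeval x (C (8 * α) * r) * t +
    aeval x (C (-2) * a₂) * t ^ 2 + aeval x (0 : K[X]) * t ^ 3 + aeval x (1 : K[X]) * t ^ 4 = _
  simp only [map_sub, map_mul, map_pow, aeval_C, map_zero, map_one, map_ofNat, map_neg]
  ring

/-- the leading form of the quartic -/
theorem lead_pT (α : K) (a₂ a₄ r : K[X]) (d2 : a₂.natDegree ≤ 2) :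
    bin4 (lead (cc (pT α a₂ a₄ r))) (X : K[X]) 1 =
      bin4 ![a₂.coeff 2 ^ 2 - 4 * α * a₄.coeff 4, 8 * α * r.coeff 3, -2 * a₂.coeff 2, 0, 1]
        (1 : K[X]) X := by
  rw [lead_cc]
  have e1 : (a₂ ^ 2).coeff 4 = a₂.coeff 2 ^ 2 := by
    have h := coeff_mul_add_eq_of_natDegree_le d2 d2
    rw [pow_two, pow_two]
    exact h
  change C ((1 : K[X]).coeff 0) + C ((0 : K[X]).coeff 1) * X + C ((C (-2) * a₂).coeff 2) * X ^ 2 +
      C ((C (8 * α) * r).coeff 3) * X ^ 3 + C ((a₂ ^ 2 - C (4 * α) * a₄).coeff 4) * X ^ 4 = _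
  rw [coeff_sub, coeff_C_mul, coeff_C_mul, coeff_C_mul, e1, coeff_zero, coeff_one_zero]
  simp [bin4]
  ring

/-- the curve at infinity -/
theorem inf_pT [IsAlgClosed K] (hG : GOps K G) (h2 : (2 : K) ≠ 0) (α : K) (hα : α ≠ 0)
    (a₂ a₄ r : K[X]) (d2 : a₂.natDegree ≤ 2) (dr : r.natDegree ≤ 3)
    (H : (BC (top α a₂ a₄ (r ^ 2))).Mem G) :
    (BC (bin4 (lead (cc (pT α a₂ a₄ r))) (X : K[X]) 1)).Mem G := by
  have h4 : (4 : K) ≠ 0 := by
    have : (4 : K) = 2 * 2 := by norm_num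
    rw [this]
    exact mul_ne_zero h2 h2
  rw [lead_pT α a₂ a₄ r d2]
  refine BC_rev hG _ ?_
  have e1 : bin4 ![a₂.coeff 2 ^ 2 - 4 * α * a₄.coeff 4, 8 * α * r.coeff 3, -2 * a₂.coeff 2, 0, 1]
      (X : K[X]) 1 = (C (a₂.coeff 2) - X ^ 2) ^ 2 -
        4 * C α * (C (a₄.coeff 4) - C (2 * r.coeff 3) * X) := by
    simp only [bin4, Polynomial.algebraMap_eq]
    change C (a₂.coeff 2 ^ 2 - 4 * α * a₄.coeff 4) * 1 ^ 4 + C (8 * α * r.coeff 3) * (X * 1 ^ 3) +
      C (-2 * a₂.coeff 2) * (X ^ 2 * 1 ^ 2) + C 0 * (X ^ 3 * 1) + C 1 * X ^ 4 = _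
    simp only [map_sub, map_mul, map_pow, map_neg, map_ofNat, map_zero, map_one]
    ring
  rw [e1]
  have e2 : (C (-2 * r.coeff 3) : K[X]) ^ 2 - 4 * (-X) * (C α * X ^ 2 + C (a₂.coeff 2) * X +
      C (a₄.coeff 4)) = C 4 * top α a₂ a₄ (r ^ 2) := by
    have e3 : (r ^ 2).coeff 6 = r.coeff 3 ^ 2 := by
      have h := coeff_mul_add_eq_of_natDegree_le dr dr
      rw [pow_two, pow_two]
      exact h
    simp only [top, e3, map_pow, map_mul, map_neg, map_ofNat]
    ring
  refine BC.corr hG h2 (a' := -X) (b' := C (-2 * r.coeff 3))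
    (c' := C α * X ^ 2 + C (a₂.coeff 2) * X + C (a₄.coeff 4)) ?_ (C_ne_zero.2 hα)
    (neg_ne_zero.2 X_ne_zero) ?_
  · intro R _ _ t x
    simp only [map_add, map_sub, map_mul, map_pow, map_neg, aeval_C, aeval_X, map_ofNat]
    ring
  · rw [e2]
    exact BC.smul 4 h4 H

/-- invariance under horizontal translations -/
theorem cyl_horiz (p : Fin 5 → K[X]) (h : ∀ j : Fin 5, (p j).natDegree ≤ 4 - j) {q₀ : K}
    (h0 : q₀ ≠ 0)
    (hq : ∀ (R : Type) [CommRing R] [Algebra K R] (x y t : R),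
      F4 (cc p) (x + t * algebraMap K R q₀) (y + t * algebraMap K R 0) 1 = F4 (cc p) x y 1)
    (j : Fin 5) : p j = C ((p j).eval 0) := by
  have h1 := cyl_elim (cc p) h0 hq K[X][X] (C X) X
  rw [zero_div, map_zero, zero_mul, add_zero, F4_cc p h, F4_cc p h] at h1
  have e1 : ∀ g : K[X], aeval (C X : K[X][X]) g = C g := fun g => by
    have h2 := aeval_algebraMap_apply K[X][X] (X : K[X]) g
    rw [aeval_X_left_apply] at h2
    exact h2
  have e2 : ∀ g : K[X], aeval (0 : K[X][X]) g = C (C (g.eval 0)) := fun g => by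
    rw [← map_zero (algebraMap K K[X][X]), aeval_algebraMap_apply, coe_aeval_eq_eval]
    rfl
  rw [e1, e1, e1, e1, e1, e2, e2, e2, e2, e2] at h1
  have h3 := congrArg (fun g => coeff g (j : ℕ)) h1
  fin_cases j <;>
  · simp only [coeff_add, coeff_C_mul, coeff_X_pow, coeff_C, coeff_X] at h3
    norm_num at h3
    exact h3

theorem pT_cyl (h2 : (2 : K) ≠ 0) (α : K) (hα : α ≠ 0) (a₂ a₄ r : K[X])
    (d2 : a₂.natDegree ≤ 2) (d4 : a₄.natDegree ≤ 4) (dr : r.natDegree ≤ 3)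
    (hcyl : ¬ Cyl6 α a₂ a₄ (r ^ 2)) : ¬ Cyl' (cc (pT α a₂ a₄ r)) := by
  rintro ⟨q₀, q₁, hne, hq⟩
  have hd := pT_deg α a₂ a₄ r d2 d4 dr
  have h4 : (4 : K) ≠ 0 := by
    have : (4 : K) = 2 * 2 := by norm_num
    rw [this]
    exact mul_ne_zero h2 h2
  have h8 : (8 : K) ≠ 0 := by
    have : (8 : K) = 2 * 4 := by norm_num
    rw [this]
    exact mul_ne_zero h2 h4
  have h1 := cyl_three _ hd hq 0
  change (0 : K[X]).eval (0 + q₀) + 4 * q₁ * (1 : K[X]).eval (0 + q₀) = (0 : K[X]).eval 0 at h1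
  rw [eval_zero, eval_zero, eval_one, zero_add, mul_one] at h1
  have h5 : q₁ = 0 := (mul_eq_zero.1 h1).resolve_left h4
  subst h5
  have h0 : q₀ ≠ 0 := hne.resolve_right (fun h => h rfl)
  have k0 : a₂ ^ 2 - C (4 * α) * a₄ = C ((a₂ ^ 2 - C (4 * α) * a₄).eval 0) :=
    cyl_horiz _ hd h0 hq 0
  have k1 : C (8 * α) * r = C ((C (8 * α) * r).eval 0) := cyl_horiz _ hd h0 hq 1
  have k2 : C (-2) * a₂ = C ((C (-2) * a₂).eval 0) := cyl_horiz _ hd h0 hq 2
  have m1 : r = C (r.eval 0) := by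
    have : (C (8 * α) : K[X]) * (r - C (r.eval 0)) = 0 := by
      rw [mul_sub, k1, eval_mul, eval_C, ← C_mul, sub_self]
    rcases mul_eq_zero.1 this with h | h
    · exact absurd (C_eq_zero.1 h) (mul_ne_zero h8 hα)
    · exact sub_eq_zero.1 h
  have m2 : a₂ = C (a₂.eval 0) := by
    have : (C (-2) : K[X]) * (a₂ - C (a₂.eval 0)) = 0 := by
      rw [mul_sub, k2, eval_mul, eval_C, ← C_mul, sub_self]
    rcases mul_eq_zero.1 this with h | h
    · exact absurd (C_eq_zero.1 h) (neg_ne_zero.2 h2)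
    · exact sub_eq_zero.1 h
  have m4 : a₄ = C (a₄.eval 0) := by
    have : (C (4 * α) : K[X]) * (a₄ - C (a₄.eval 0)) = 0 := by
      rw [eval_sub, eval_pow, eval_mul, eval_C, C_sub, C_pow, ← m2] at k0
      have k3 : (C (4 * α) : K[X]) * a₄ = C (4 * α * a₄.eval 0) := by
        linear_combination -k0
      rw [mul_sub, k3, ← C_mul, sub_self]
    rcases mul_eq_zero.1 this with h | h
    · exact absurd (C_eq_zero.1 h) (mul_ne_zero h4 hα)
    · exact sub_eq_zero.1 h
  refine hcyl (Or.inl ⟨hα, 0, by simp, a₂.eval 0, a₄.eval 0, (r ^ 2).eval 0,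
    fun R _ _ x y => ?_⟩)
  rw [map_zero, add_zero, eval_pow, C_pow, ← m1, ← m2, ← m4]

/-- **a tritangent section** -/
theorem cone_tri0 [IsAlgClosed K] (hG : GOps K G) (h2 : (2 : K) ≠ 0)
    (geo : ∀ c : ℕ → ℕ → K, (BC (bin4 (lead c) (X : K[X]) 1)).Mem G → ¬ Cyl' c → (V c).Mem G)
    (α : K) (hα : α ≠ 0) (a₂ a₄ r : K[X]) (d2 : a₂.natDegree ≤ 2)
    (d4 : a₄.natDegree ≤ 4) (dr : r.natDegree ≤ 3) (hinf : (BC (top α a₂ a₄ (r ^ 2))).Mem G)
    (hcyl : ¬ Cyl6 α a₂ a₄ (r ^ 2)) : (W α a₂ a₄ (r ^ 2)).Mem G := by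
  set c := cc (pT α a₂ a₄ r) with hc
  have hF : ∀ (R : Type) [CommRing R] [Algebra K R] (x t : R), F4 c x t 1 =
      (aeval x a₂ - t ^ 2) ^ 2 - 4 * algebraMap K R α * (aeval x a₄ - 2 * aeval x r * t) :=
    fun R _ _ x t => F4_pT α a₂ a₄ r d2 d4 dr x t
  have hD : ∀ (R : Type) [CommRing R] [Algebra K R] (x y : R), Dv α a₂ a₄ (r ^ 2) x y =
      algebraMap K R α * y ^ 3 + aeval x a₂ * y ^ 2 + aeval x a₄ * y + aeval x r ^ 2 := by
    intro R _ _ x y
    rw [Dv, map_pow]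
  have hV : (V c).Mem G := geo c (inf_pT hG h2 α hα a₂ a₄ r d2 dr hinf)
    (pT_cyl h2 α hα a₂ a₄ r d2 d4 dr hcyl)
  have h2α : (2 * α : K) ≠ 0 := mul_ne_zero h2 hα
  have hs : ∀ (R : Type) [CommRing R] [Algebra K R],
      2 * algebraMap K R α * algebraMap K R (2 * α)⁻¹ = 1 := by
    intro R _ _
    rw [← map_ofNat (algebraMap K R) 2, ← map_mul, ← map_mul, mul_inv_cancel₀ h2α, map_one]
  let yV : Coord (V c) := ⟨fun {R} _ _ x => algebraMap K R (2 * α)⁻¹ *
    (x.1.2.2 - (aeval x.1.1 a₂ - x.1.2.1 ^ 2)), fun f x => by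
    simp only [map_mul, map_sub, map_pow, AlgHom.commutes, ← aeval_algHom_apply]
    rfl⟩
  let yW : Coord (W α a₂ a₄ (r ^ 2)) := ⟨fun x => x.1.2.1, fun _ _ => rfl⟩
  have hV0 : ((V c).cls yV).Mem G := by
    refine Mem.of_iso (F' := Gam 0 (C 2 * r) (-a₄)) ?_ (mem_lin hG _ _)
    exact
      { hom := fun {R} _ _ x => ⟨(x.1.1.1, x.1.1.2.1), by
          have h5 : algebraMap K R (2 * α)⁻¹ * (x.1.1.2.2 - (aeval x.1.1.1 a₂ -
            x.1.1.2.1 ^ 2)) = 0 := x.2
          have h6 : x.1.1.2.2 ^ 2 - F4 c x.1.1.1 x.1.1.2.1 1 = 0 := x.1.2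
          rw [hF] at h6
          have h7 := hs R
          change aeval x.1.1.1 (0 : K[X]) * x.1.1.2.1 ^ 2 + aeval x.1.1.1 (C 2 * r) * x.1.1.2.1 +
            aeval x.1.1.1 (-a₄) = 0
          rw [map_zero, map_mul, aeval_C, map_ofNat, map_neg]
          have h8 : x.1.1.2.2 - (aeval x.1.1.1 a₂ - x.1.1.2.1 ^ 2) = 0 := by
            linear_combination 2 * algebraMap K R α * h5 -
              (x.1.1.2.2 - (aeval x.1.1.1 a₂ - x.1.1.2.1 ^ 2)) * h7
          have h9 : (4 * algebraMap K R α) * (2 * aeval x.1.1.1 r * x.1.1.2.1 -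
              aeval x.1.1.1 a₄) = 0 := by
            linear_combination (x.1.1.2.2 + (aeval x.1.1.1 a₂ - x.1.1.2.1 ^ 2)) * h8 - h6
          have h10 : IsUnit (4 * algebraMap K R α) := by
            have : 4 * algebraMap K R α = algebraMap K R 2 * algebraMap K R (2 * α) := by
              rw [map_mul, map_ofNat]
              ring
            rw [this]
            exact (unit_const h2).mul (unit_const h2α)
          have h11 := (h10.mul_right_eq_zero).1 h9
          linear_combination h11⟩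
        inv := fun {R} _ _ y => ⟨⟨(y.1.1, y.1.2, aeval y.1.1 a₂ - y.1.2 ^ 2), by
          have h5 : aeval y.1.1 (0 : K[X]) * y.1.2 ^ 2 + aeval y.1.1 (C 2 * r) * y.1.2 +
            aeval y.1.1 (-a₄) = 0 := y.2
          have e5 : aeval y.1.1 (0 : K[X]) = (0 : R) := map_zero _
          have e6 : aeval y.1.1 (C 2 * r) = 2 * aeval y.1.1 r := by
            rw [map_mul, aeval_C, map_ofNat]
          have e7 : aeval y.1.1 (-a₄) = -aeval y.1.1 a₄ := map_neg _ _
          change (aeval y.1.1 a₂ - y.1.2 ^ 2) ^ 2 - F4 c y.1.1 y.1.2 1 = 0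
          rw [hF]
          linear_combination (-4 * algebraMap K R α) * h5 + 4 * algebraMap K R α * (e5 * y.1.2 ^ 2 +
            e6 * y.1.2 + e7)⟩, by
          change algebraMap K R (2 * α)⁻¹ * ((aeval y.1.1 a₂ - y.1.2 ^ 2) -
            (aeval y.1.1 a₂ - y.1.2 ^ 2)) = 0
          rw [sub_self, mul_zero]⟩
        inv_hom := fun {R} _ _ x => by
          have h5 : algebraMap K R (2 * α)⁻¹ * (x.1.1.2.2 - (aeval x.1.1.1 a₂ -
            x.1.1.2.1 ^ 2)) = 0 := x.2
          have h7 := hs R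
          refine Subtype.ext (Subtype.ext (Prod.ext rfl (Prod.ext rfl ?_)))
          change aeval x.1.1.1 a₂ - x.1.1.2.1 ^ 2 = x.1.1.2.2
          linear_combination (-2 * algebraMap K R α) * h5 +
              (x.1.1.2.2 - (aeval x.1.1.1 a₂ - x.1.1.2.1 ^ 2)) * h7
        hom_inv := fun _ => rfl
        nat := fun _ _ => rfl }
  have hW0 : ((W α a₂ a₄ (r ^ 2)).cls yW).Mem G := by
    refine Mem.of_iso (F' := BC (r ^ 2)) ?_ (BC.square hG r)
    exact
      { hom := fun {R} _ _ x => ⟨(x.1.1.1, x.1.1.2.2), by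
          have h5 : x.1.1.2.1 = 0 := x.2
          have h6 : x.1.1.2.2 ^ 2 - Dv α a₂ a₄ (r ^ 2) x.1.1.1 x.1.1.2.1 = 0 := x.1.2
          rw [hD, h5] at h6
          change x.1.1.2.2 ^ 2 - aeval x.1.1.1 (r ^ 2) = 0
          rw [map_pow]
          linear_combination h6⟩
        inv := fun {R} _ _ y => ⟨⟨(y.1.1, 0, y.1.2), by
          have h6 : y.1.2 ^ 2 - aeval y.1.1 (r ^ 2) = 0 := y.2
          rw [map_pow] at h6
          change y.1.2 ^ 2 - Dv α a₂ a₄ (r ^ 2) y.1.1 0 = 0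
          rw [hD]
          linear_combination h6⟩, rfl⟩
        inv_hom := fun {R} _ _ x => by
          have h5 : x.1.1.2.1 = 0 := x.2
          exact Subtype.ext (Subtype.ext (Prod.ext rfl (Prod.ext h5.symm rfl)))
        hom_inv := fun _ => rfl
        nat := fun f x => Subtype.ext rfl }
  refine Mem.glue hG.toKOps yW ?_ hW0
  refine Mem.of_iso ?_ (mem_opn hG.toKOps yV hV hV0)
  have hy : ∀ (R : Type) [CommRing R] [Algebra K R] (y e : R),
      algebraMap K R (2 * α)⁻¹ * ((2 * algebraMap K R α * y + e) - e) = y := by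
    intro R _ _ y e
    linear_combination y * hs R
  exact
    { hom := fun {R} _ _ x => ⟨⟨(x.1.1.1, (x.1.1.2.2 - aeval x.1.1.1 r) *
          Ring.inverse x.1.1.2.1, 2 * algebraMap K R α * x.1.1.2.1 + (aeval x.1.1.1 a₂ -
            ((x.1.1.2.2 - aeval x.1.1.1 r) * Ring.inverse x.1.1.2.1) ^ 2)), by
          have h5 : IsUnit x.1.1.2.1 := x.2
          have h6 := mul_inv' h5
          have h7 : x.1.1.2.2 ^ 2 - Dv α a₂ a₄ (r ^ 2) x.1.1.1 x.1.1.2.1 = 0 := x.1.2
          rw [hD] at h7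
          change (2 * algebraMap K R α * x.1.1.2.1 + (aeval x.1.1.1 a₂ -
            ((x.1.1.2.2 - aeval x.1.1.1 r) * Ring.inverse x.1.1.2.1) ^ 2)) ^ 2 -
            F4 c x.1.1.1 ((x.1.1.2.2 - aeval x.1.1.1 r) * Ring.inverse x.1.1.2.1) 1 = 0
          rw [hF]
          set w := Ring.inverse x.1.1.2.1
          set t := (x.1.1.2.2 - aeval x.1.1.1 r) * w with ht
          have h8 : x.1.1.2.1 * t = x.1.1.2.2 - aeval x.1.1.1 r := by
            rw [ht]
            linear_combination (x.1.1.2.2 - aeval x.1.1.1 r) * h6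
          have h9 : x.1.1.2.1 * (algebraMap K R α * x.1.1.2.1 ^ 2 +
              (aeval x.1.1.1 a₂ - t ^ 2) * x.1.1.2.1 + aeval x.1.1.1 a₄ -
              2 * aeval x.1.1.1 r * t) = 0 := by
            linear_combination (-(x.1.1.2.1 * t + x.1.1.2.2 + aeval x.1.1.1 r)) * h8 - h7
          have h10 := (h5.mul_right_eq_zero).1 h9
          linear_combination 4 * algebraMap K R α * h10⟩, by
          change IsUnit (algebraMap K R (2 * α)⁻¹ * ((2 * algebraMap K R α * x.1.1.2.1 +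
            (aeval x.1.1.1 a₂ - ((x.1.1.2.2 - aeval x.1.1.1 r) *
            Ring.inverse x.1.1.2.1) ^ 2)) - (aeval x.1.1.1 a₂ -
            ((x.1.1.2.2 - aeval x.1.1.1 r) * Ring.inverse x.1.1.2.1) ^ 2)))
          rw [hy]
          exact x.2⟩
      inv := fun {R} _ _ x => ⟨⟨(x.1.1.1, algebraMap K R (2 * α)⁻¹ *
          (x.1.1.2.2 - (aeval x.1.1.1 a₂ - x.1.1.2.1 ^ 2)), aeval x.1.1.1 r +
          algebraMap K R (2 * α)⁻¹ * (x.1.1.2.2 - (aeval x.1.1.1 a₂ - x.1.1.2.1 ^ 2)) *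
          x.1.1.2.1), by
          have h7 : x.1.1.2.2 ^ 2 - F4 c x.1.1.1 x.1.1.2.1 1 = 0 := x.1.2
          rw [hF] at h7
          change (aeval x.1.1.1 r + algebraMap K R (2 * α)⁻¹ * (x.1.1.2.2 -
            (aeval x.1.1.1 a₂ - x.1.1.2.1 ^ 2)) * x.1.1.2.1) ^ 2 -
            Dv α a₂ a₄ (r ^ 2) x.1.1.1 (algebraMap K R (2 * α)⁻¹ * (x.1.1.2.2 -
            (aeval x.1.1.1 a₂ - x.1.1.2.1 ^ 2))) = 0
          rw [hD]
          set y := algebraMap K R (2 * α)⁻¹ * (x.1.1.2.2 - (aeval x.1.1.1 a₂ -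
            x.1.1.2.1 ^ 2)) with hyd
          have h8 : x.1.1.2.2 = 2 * algebraMap K R α * y + (aeval x.1.1.1 a₂ -
              x.1.1.2.1 ^ 2) := by
            rw [hyd]
            linear_combination (-(x.1.1.2.2 - (aeval x.1.1.1 a₂ - x.1.1.2.1 ^ 2))) * hs R
          rw [h8] at h7
          have h9 : (4 * algebraMap K R α) * (algebraMap K R α * y ^ 2 +
              (aeval x.1.1.1 a₂ - x.1.1.2.1 ^ 2) * y + aeval x.1.1.1 a₄ -
              2 * aeval x.1.1.1 r * x.1.1.2.1) = 0 := by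
            linear_combination h7
          have h10 : IsUnit (4 * algebraMap K R α) := by
            have : 4 * algebraMap K R α = algebraMap K R 2 * algebraMap K R (2 * α) := by
              rw [map_mul, map_ofNat]
              ring
            rw [this]
            exact (unit_const h2).mul (unit_const h2α)
          have h11 := (h10.mul_right_eq_zero).1 h9
          linear_combination (-y) * h11⟩, x.2⟩
      inv_hom := fun {R} _ _ x => by
        have h5 : IsUnit x.1.1.2.1 := x.2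
        have h6 := mul_inv' h5
        refine Subtype.ext (Subtype.ext (Prod.ext rfl (Prod.ext ?_ ?_)))
        · exact hy R _ _
        · change aeval x.1.1.1 r + algebraMap K R (2 * α)⁻¹ * ((2 * algebraMap K R α * x.1.1.2.1 +
            (aeval x.1.1.1 a₂ - ((x.1.1.2.2 - aeval x.1.1.1 r) *
            Ring.inverse x.1.1.2.1) ^ 2)) - (aeval x.1.1.1 a₂ -
            ((x.1.1.2.2 - aeval x.1.1.1 r) * Ring.inverse x.1.1.2.1) ^ 2)) *
            ((x.1.1.2.2 - aeval x.1.1.1 r) * Ring.inverse x.1.1.2.1) = x.1.1.2.2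
          rw [hy]
          linear_combination (x.1.1.2.2 - aeval x.1.1.1 r) * h6
      hom_inv := fun {R} _ _ x => by
        have h5 : IsUnit (algebraMap K R (2 * α)⁻¹ * (x.1.1.2.2 - (aeval x.1.1.1 a₂ -
          x.1.1.2.1 ^ 2))) := x.2
        have h6 := mul_inv' h5
        have e1 : (aeval x.1.1.1 r + algebraMap K R (2 * α)⁻¹ * (x.1.1.2.2 -
            (aeval x.1.1.1 a₂ - x.1.1.2.1 ^ 2)) * x.1.1.2.1 - aeval x.1.1.1 r) *
            Ring.inverse (algebraMap K R (2 * α)⁻¹ * (x.1.1.2.2 - (aeval x.1.1.1 a₂ -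
              x.1.1.2.1 ^ 2))) = x.1.1.2.1 := by
          linear_combination x.1.1.2.1 * h6
        refine Subtype.ext (Subtype.ext (Prod.ext rfl (Prod.ext ?_ ?_)))
        · exact e1
        · change 2 * algebraMap K R α * (algebraMap K R (2 * α)⁻¹ * (x.1.1.2.2 -
            (aeval x.1.1.1 a₂ - x.1.1.2.1 ^ 2))) + (aeval x.1.1.1 a₂ - ((aeval x.1.1.1 r +
            algebraMap K R (2 * α)⁻¹ * (x.1.1.2.2 - (aeval x.1.1.1 a₂ - x.1.1.2.1 ^ 2)) *
            x.1.1.2.1 - aeval x.1.1.1 r) * Ring.inverse (algebraMap K R (2 * α)⁻¹ *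
            (x.1.1.2.2 - (aeval x.1.1.1 a₂ - x.1.1.2.1 ^ 2)))) ^ 2) = x.1.1.2.2
          rw [e1]
          linear_combination (x.1.1.2.2 - (aeval x.1.1.1 a₂ - x.1.1.2.1 ^ 2)) * hs R
      nat := fun {R S} _ _ _ _ f x => by
        have h5 : IsUnit x.1.1.2.1 := x.2
        refine Subtype.ext (Subtype.ext (Prod.ext rfl (Prod.ext ?_ ?_)))
        · change f ((x.1.1.2.2 - aeval x.1.1.1 r) * Ring.inverse x.1.1.2.1) =
            (f x.1.1.2.2 - aeval (f x.1.1.1) r) * Ring.inverse (f x.1.1.2.1)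
          rw [map_mul, inv_nat f h5, map_sub, ← aeval_algHom_apply]
        · change f (2 * algebraMap K R α * x.1.1.2.1 + (aeval x.1.1.1 a₂ -
            ((x.1.1.2.2 - aeval x.1.1.1 r) * Ring.inverse x.1.1.2.1) ^ 2)) =
            2 * algebraMap K S α * f x.1.1.2.1 + (aeval (f x.1.1.1) a₂ -
            ((f x.1.1.2.2 - aeval (f x.1.1.1) r) * Ring.inverse (f x.1.1.2.1)) ^ 2)
          simp only [map_add, map_sub, map_mul, map_pow, map_ofNat, AlgHom.commutes,
            inv_nat f h5, ← aeval_algHom_apply] }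

end Pool.Agent.Helper49.CT
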