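import Pool.Agent.Helper49.CT.Zero
import Pool.Agent.Helper49.CT.Inf
import Pool.Agent.Helper49.CT.Tri
import Pool.Agent.Helper49.CT.Shift

/-!
# Double covers of the quadric cone
-/

set_option autoImplicit false

namespace Pool.Agent.Helper49.CT

open Pool.Agent.Helper65.CC Pool.Agent.Helper87.CC Pool.Agent.Helper65.CC.KFn
open Pool.Agent.Helper29.CQ Pool.Agent.Helper71.CT
open Polynomial

variable {K : Type} [Field K] {G : ∀ (R : Type) [CommRing R] [Algebra K R], Prop}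

/-- the tritangent case -/
theorem cone_tri [IsAlgClosed K] (hG : GOps K G) (h2 : (2 : K) ≠ 0) (geo : Geo4 K G)
    (α : K) (hα : α ≠ 0) (a₂ a₄ a₆ : K[X]) (d2 : a₂.natDegree ≤ 2)
    (d4 : a₄.natDegree ≤ 4) (hinf : (BC (top α a₂ a₄ a₆)).Mem G)
    (hcyl : ¬ Cyl6 α a₂ a₄ a₆) (q r : K[X]) (dq : q.natDegree ≤ 2) (dr : r.natDegree ≤ 3)
    (h : C α * q ^ 3 + a₂ * q ^ 2 + a₄ * q + a₆ = r ^ 2) : (W α a₂ a₄ a₆).Mem G := by
  have h6 : s6 α a₂ a₄ a₆ q = r ^ 2 := h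
  have ht : (BC (top α (s2 α a₂ q) (s4 α a₂ a₄ q) (s6 α a₂ a₄ a₆ q))).Mem G := by
    rw [top_vert d2 d4 dq]
    exact BC_shift _ _ hinf
  have hc := cyl_vert6 (q := q) hα dq hcyl
  refine Mem.of_iso (vert α a₂ a₄ a₆ q) ?_
  rw [h6] at ht hc ⊢
  exact cone_tri0 hG h2 geo α hα _ _ r (natDegree_s2 d2 dq) (natDegree_s4 d2 d4 dq) dr ht hc

/-- the singular case -/
theorem cone_sing [IsAlgClosed K] (hG : GOps K G) (geo : Geo4 K G)
    (α : K) (hα : α ≠ 0) (a₂ a₄ a₆ : K[X]) (d2 : a₂.natDegree ≤ 2)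
    (d4 : a₄.natDegree ≤ 4) (d6 : a₆.natDegree ≤ 6) (hinf : (BC (top α a₂ a₄ a₆)).Mem G)
    (x0 y0 : K) (h1 : α * y0 ^ 3 + a₂.eval x0 * y0 ^ 2 + a₄.eval x0 * y0 + a₆.eval x0 = 0)
    (h2 : 3 * α * y0 ^ 2 + 2 * a₂.eval x0 * y0 + a₄.eval x0 = 0)
    (h3 : a₂.derivative.eval x0 * y0 ^ 2 + a₄.derivative.eval x0 * y0 + a₆.derivative.eval x0 = 0) :
    (W α a₂ a₄ a₆).Mem G := by
  set e2 := a₂.comp (X + C x0) with he2
  set e4 := a₄.comp (X + C x0) with he4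
  set e6 := a₆.comp (X + C x0) with he6
  have v2 : e2.eval 0 = a₂.eval x0 := by
    rw [he2, eval_comp, eval_add, eval_X, eval_C, zero_add]
  have v4 : e4.eval 0 = a₄.eval x0 := by
    rw [he4, eval_comp, eval_add, eval_X, eval_C, zero_add]
  have v6 : e6.eval 0 = a₆.eval x0 := by
    rw [he6, eval_comp, eval_add, eval_X, eval_C, zero_add]
  have w : ∀ g : K[X], (g.comp (X + C x0)).derivative.eval 0 = g.derivative.eval x0 := by
    intro g
    rw [derivative_comp, eval_mul, eval_comp, eval_add, eval_X, eval_C, zero_add]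
    simp
  have f2 : e2.natDegree ≤ 2 := natDegree_sh x0 _ _ d2
  have f4 : e4.natDegree ≤ 4 := natDegree_sh x0 _ _ d4
  have f6 : e6.natDegree ≤ 6 := natDegree_sh x0 _ _ d6
  have dq : (C y0 : K[X]).natDegree ≤ 2 := (natDegree_C _).le.trans (Nat.zero_le _)
  have ht : (BC (top α (s2 α e2 (C y0)) (s4 α e2 e4 (C y0)) (s6 α e2 e4 e6 (C y0)))).Mem G := by
    rw [top_vert f2 f4 dq]
    refine BC_shift _ _ ?_
    rw [he2, he4, he6, top_horiz x0 d2 d4 d6]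
    exact hinf
  have z4 : (s4 α e2 e4 (C y0)).coeff 0 = 0 := by
    rw [coeff_zero_eq_eval_zero, s4]
    simp only [eval_add, eval_mul, eval_pow, eval_C, v2, v4]
    linear_combination h2
  have z6 : (s6 α e2 e4 e6 (C y0)).coeff 0 = 0 := by
    rw [coeff_zero_eq_eval_zero, s6]
    simp only [eval_add, eval_mul, eval_pow, eval_C, v2, v4, v6]
    linear_combination h1
  have z61 : (s6 α e2 e4 e6 (C y0)).coeff 1 = 0 := by
    have h4 : (s6 α e2 e4 e6 (C y0)).derivative.coeff 0 = 0 := by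
      rw [coeff_zero_eq_eval_zero, s6]
      simp only [derivative_add, derivative_mul, derivative_pow, derivative_C, eval_add, eval_mul,
        eval_pow, eval_C, eval_zero, mul_zero, zero_mul, add_zero, zero_add, he2, he4, he6, w]
      linear_combination h3
    rw [coeff_derivative] at h4
    simpa using h4
  have b4 : X * (s4 α e2 e4 (C y0)).divX = s4 α e2 e4 (C y0) := by
    have := divX_mul_X_add (s4 α e2 e4 (C y0))
    rw [z4, C_0, add_zero, mul_comm] at this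
    exact this
  have b6 : X ^ 2 * (s6 α e2 e4 e6 (C y0)).divX.divX = s6 α e2 e4 e6 (C y0) := by
    have k1 := divX_mul_X_add (s6 α e2 e4 e6 (C y0))
    rw [z6, C_0, add_zero] at k1
    have k2 := divX_mul_X_add (s6 α e2 e4 e6 (C y0)).divX
    rw [coeff_divX, zero_add, z61, C_0, add_zero] at k2
    rw [pow_two, mul_comm, ← mul_assoc, k2, k1]
  have g4 : (s4 α e2 e4 (C y0)).divX.natDegree ≤ 3 := by
    rw [natDegree_divX_eq_natDegree_tsub_one]
    have := natDegree_s4 (α := α) f2 f4 dq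
    omega
  have g6 : (s6 α e2 e4 e6 (C y0)).divX.divX.natDegree ≤ 4 := by
    rw [natDegree_divX_eq_natDegree_tsub_one, natDegree_divX_eq_natDegree_tsub_one]
    have := natDegree_s6 (α := α) f2 f4 f6 dq
    omega
  refine Mem.of_iso (horiz α a₂ a₄ a₆ x0) (Mem.of_iso (vert α e2 e4 e6 (C y0)) ?_)
  rw [← b4, ← b6] at ht ⊢
  exact cone_sing0 hG geo α hα _ _ _ (natDegree_s2 f2 dq) g4 g6 ht

/-- the degenerate case at infinity -/
theorem cone_inf [IsAlgClosed K] (hG : GOps K G) (geo : Geo4 K G)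
    (α : K) (hα : α ≠ 0) (a₂ a₄ a₆ : K[X]) (d2 : a₂.natDegree ≤ 2)
    (d4 : a₄.natDegree ≤ 4) (d6 : a₆.natDegree ≤ 6)
    (hcyl : ¬ Cyl6 α a₂ a₄ a₆) (y0 : K)
    (h1 : α * y0 ^ 3 + a₂.coeff 2 * y0 ^ 2 + a₄.coeff 4 * y0 + a₆.coeff 6 = 0)
    (h2 : 3 * α * y0 ^ 2 + 2 * a₂.coeff 2 * y0 + a₄.coeff 4 = 0)
    (h3 : a₂.coeff 1 * y0 ^ 2 + a₄.coeff 3 * y0 + a₆.coeff 5 = 0) :
    (W α a₂ a₄ a₆).Mem G := by
  set q : K[X] := C y0 * X ^ 2 with hq
  have dq : q.natDegree ≤ 2 := (natDegree_C_mul_le _ _).trans (natDegree_X_pow_le _)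
  have hc := cyl_vert6 (q := q) hα dq hcyl
  have l4 := natDegree_s4 (α := α) d2 d4 dq
  have l6 := natDegree_s6 (α := α) d2 d4 d6 dq
  have c4 : (s4 α a₂ a₄ q).coeff 4 = 0 := by
    have e : s4 α a₂ a₄ q = a₄ + C (2 * y0) * (a₂ * X ^ 2) + C (3 * α * y0 ^ 2) * X ^ 4 := by
      rw [s4, hq]
      simp only [map_mul, map_pow, map_ofNat]
      ring
    rw [e, coeff_add, coeff_add, coeff_C_mul, coeff_C_mul, coeff_mul_X_pow a₂ 2 2, coeff_X_pow,
      if_pos rfl]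
    linear_combination h2
  have e6 : s6 α a₂ a₄ a₆ q = C (α * y0 ^ 3) * X ^ 6 + C (y0 ^ 2) * (a₂ * X ^ 4) +
      C y0 * (a₄ * X ^ 2) + a₆ := by
    rw [s6, hq]
    simp only [map_mul, map_pow]
    ring
  have c6 : (s6 α a₂ a₄ a₆ q).coeff 6 = 0 := by
    rw [e6, coeff_add, coeff_add, coeff_add, coeff_C_mul, coeff_C_mul, coeff_C_mul,
      coeff_mul_X_pow a₂ 4 2, coeff_mul_X_pow a₄ 2 4, coeff_X_pow, if_pos rfl]
    linear_combination h1
  have c5 : (s6 α a₂ a₄ a₆ q).coeff 5 = 0 := by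
    rw [e6, coeff_add, coeff_add, coeff_add, coeff_C_mul, coeff_C_mul, coeff_C_mul,
      coeff_mul_X_pow a₂ 4 1, coeff_mul_X_pow a₄ 2 3, coeff_X_pow, if_neg (by omega)]
    linear_combination h3
  have m4 : (s4 α a₂ a₄ q).natDegree ≤ 3 := by
    rw [natDegree_le_iff_coeff_eq_zero]
    intro N hN
    rcases eq_or_lt_of_le (Nat.succ_le_of_lt hN) with h | h
    · rw [← h]
      exact c4
    · exact coeff_eq_zero_of_natDegree_lt (lt_of_le_of_lt l4 h)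
  have m6 : (s6 α a₂ a₄ a₆ q).natDegree ≤ 4 := by
    rw [natDegree_le_iff_coeff_eq_zero]
    intro N hN
    rcases eq_or_lt_of_le (Nat.succ_le_of_lt hN) with h | h
    · rw [← h]
      exact c5
    · rcases eq_or_lt_of_le (Nat.succ_le_of_lt h) with h' | h'
      · rw [← h']
        exact c6
      · exact coeff_eq_zero_of_natDegree_lt (lt_of_le_of_lt l6 h')
  refine Mem.of_iso (vert α a₂ a₄ a₆ q) ?_
  exact cone_inf0 hG geo α hα _ _ _ (natDegree_s2 d2 dq) m4 m6 hc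

/-- **The double covers `u ^ 2 = α y ^ 3 + a₂(x) y ^ 2 + a₄(x) y + a₆(x)`** which are not
generalised cylinders are in the class if the branch curve at infinity is, given the quartic
theorem and the trichotomy. -/
theorem cone_mem [IsAlgClosed K] (hG : GOps K G) (h2 : (2 : K) ≠ 0) (geo : Geo4 K G)
    (α : K) (a₂ a₄ a₆ : K[X]) (d2 : a₂.natDegree ≤ 2) (d4 : a₄.natDegree ≤ 4)
    (d6 : a₆.natDegree ≤ 6) (dich : α ≠ 0 → Dich α a₂ a₄ a₆)
    (hinf : (BC (top α a₂ a₄ a₆)).Mem G) (hcyl : ¬ Cyl6 α a₂ a₄ a₆) :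
    (W α a₂ a₄ a₆).Mem G := by
  by_cases hα : α = 0
  · subst hα
    refine cone_zero hG h2 a₂ a₄ a₆ d2 ?_
    by_contra h
    push Not at h
    exact hcyl (Or.inr ⟨rfl, h.1, h.2⟩)
  · rcases dich hα with ⟨q, r, dq, dr, h⟩ | ⟨x0, y0, h1, h2', h3⟩ | ⟨y0, h1, h2', h3⟩
    · exact cone_tri hG h2 geo α hα a₂ a₄ a₆ d2 d4 hinf hcyl q r dq dr h
    · exact cone_sing hG geo α hα a₂ a₄ a₆ d2 d4 d6 hinf x0 y0 h1 h2' h3
    · exact cone_inf hG geo α hα a₂ a₄ a₆ d2 d4 d6 hcyl y0 h1 h2' h3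

end Pool.Agent.Helper49.CT
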