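import Pool.Agent.Helper71.CT.Defs

/-!
# Quartics given by their coefficients with respect to `y`
-/

set_option autoImplicit false

namespace Pool.Agent.Helper49.CT

open Pool.Agent.Helper65.CC Pool.Agent.Helper87.CC Pool.Agent.Helper65.CC.KFn
open Pool.Agent.Helper29.CQ Pool.Agent.Helper71.CT
open Polynomial

variable {K : Type} [Field K] {G : ∀ (R : Type) [CommRing R] [Algebra K R], Prop}

/-- the coefficients of `p₀(x) + p₁(x) y + p₂(x) y ^ 2 + p₃(x) y ^ 3 + p₄(x) y ^ 4` -/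
noncomputable def cc (p : Fin 5 → K[X]) : ℕ → ℕ → K :=
  fun i j => if h : j < 5 then (p ⟨j, h⟩).coeff i else 0

theorem aeval_low {R : Type} [CommRing R] [Algebra K R] (x : R) (p : K[X]) (n : ℕ)
    (h : p.natDegree ≤ n) :
    aeval x p = ∑ i ∈ Finset.range (n + 1), algebraMap K R (p.coeff i) * x ^ i := by
  rw [aeval_eq_sum_range' (Nat.lt_succ_of_le h)]
  simp only [Algebra.smul_def]

theorem F4_cc (p : Fin 5 → K[X]) (h : ∀ j : Fin 5, (p j).natDegree ≤ 4 - j) {R : Type}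
    [CommRing R] [Algebra K R] (x y : R) :
    F4 (cc p) x y 1 = aeval x (p 0) + aeval x (p 1) * y + aeval x (p 2) * y ^ 2 +
      aeval x (p 3) * y ^ 3 + aeval x (p 4) * y ^ 4 := by
  rw [aeval_low x (p 0) 4 (h 0), aeval_low x (p 1) 3 (h 1), aeval_low x (p 2) 2 (h 2),
    aeval_low x (p 3) 1 (h 3), aeval_low x (p 4) 0 (h 4)]
  simp only [Finset.sum_range_succ, Finset.sum_range_zero]
  simp [F4, cc]
  ring

/-- the leading form -/
theorem lead_cc (p : Fin 5 → K[X]) : bin4 (lead (cc p)) (X : K[X]) 1 =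
    C ((p 4).coeff 0) + C ((p 3).coeff 1) * X + C ((p 2).coeff 2) * X ^ 2 +
      C ((p 1).coeff 3) * X ^ 3 + C ((p 0).coeff 4) * X ^ 4 := by
  simp [bin4, lead, cc]

/-! ### Values at zero -/

theorem aeval_z {R : Type} [CommRing R] [Algebra K R] (g : K[X]) :
    aeval (0 : R) g = algebraMap K R (g.eval 0) := by
  rw [← map_zero (algebraMap K R), aeval_algebraMap_apply, coe_aeval_eq_eval]

theorem Dv_zero {R : Type} [CommRing R] [Algebra K R] (α : K) (a₂ a₄ a₆ : K[X]) (x y : R) :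
    Dv α a₂ a₄ a₆ 0 y = Dv α (C (a₂.eval 0)) (C (a₄.eval 0)) (C (a₆.eval 0)) x y := by
  simp only [Dv, aeval_z, aeval_C]

end Pool.Agent.Helper49.CT
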