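import Pool.Agent.Helper49.CT.Cone

/-!
# Cylinders
-/

set_option autoImplicit false

namespace Pool.Agent.Helper49.CT

open Pool.Agent.Helper65.CC Pool.Agent.Helper87.CC Pool.Agent.Helper65.CC.KFn
open Pool.Agent.Helper29.CQ Pool.Agent.Helper71.CT
open Polynomial

variable {K : Type} [Field K] {G : ∀ (R : Type) [CommRing R] [Algebra K R], Prop}

theorem aeval_CX (c : K) (g : K[X]) : aeval (C c : K[X]) g = C (g.eval c) := by
  rw [← algebraMap_eq, aeval_algebraMap_apply, coe_aeval_eq_eval]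

/-- invariance of a quartic under translations, in terms of the coefficients -/
theorem cyl_iff (p : Fin 5 → K[X]) (h : ∀ j : Fin 5, (p j).natDegree ≤ 4 - j) {q₀ q₁ : K}
    (hq : ∀ (R : Type) [CommRing R] [Algebra K R] (x y t : R),
      F4 (cc p) (x + t * algebraMap K R q₀) (y + t * algebraMap K R q₁) 1 = F4 (cc p) x y 1)
    (R : Type) [CommRing R] [Algebra K R] (x y t : R) :
    aeval (x + t * algebraMap K R q₀) (p 0) +
      aeval (x + t * algebraMap K R q₀) (p 1) * (y + t * algebraMap K R q₁) +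
      aeval (x + t * algebraMap K R q₀) (p 2) * (y + t * algebraMap K R q₁) ^ 2 +
      aeval (x + t * algebraMap K R q₀) (p 3) * (y + t * algebraMap K R q₁) ^ 3 +
      aeval (x + t * algebraMap K R q₀) (p 4) * (y + t * algebraMap K R q₁) ^ 4 =
    aeval x (p 0) + aeval x (p 1) * y + aeval x (p 2) * y ^ 2 +
      aeval x (p 3) * y ^ 3 + aeval x (p 4) * y ^ 4 := by
  rw [← F4_cc p h, ← F4_cc p h]
  exact hq R x y t

/-- the coefficient of `y ^ 3` -/
theorem cyl_three (p : Fin 5 → K[X]) (h : ∀ j : Fin 5, (p j).natDegree ≤ 4 - j) {q₀ q₁ : K}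
    (hq : ∀ (R : Type) [CommRing R] [Algebra K R] (x y t : R),
      F4 (cc p) (x + t * algebraMap K R q₀) (y + t * algebraMap K R q₁) 1 = F4 (cc p) x y 1)
    (x : K) : (p 3).eval (x + q₀) + 4 * q₁ * (p 4).eval (x + q₀) = (p 3).eval x := by
  have h1 := cyl_iff p h hq K[X] (C x) X 1
  simp only [one_mul, Polynomial.algebraMap_eq, ← C_add, aeval_CX] at h1
  have h2 := congrArg (fun g => coeff g 3) h1
  simp only [coeff_add, coeff_C_mul, coeff_X_add_C_pow, coeff_X_pow, coeff_C, coeff_X] at h2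
  norm_num at h2
  linear_combination h2

/-- the coefficient of `t ^ 3` for vertical translations -/
theorem cyl_vert (p : Fin 5 → K[X]) (h : ∀ j : Fin 5, (p j).natDegree ≤ 4 - j) {q₁ : K}
    (hq : ∀ (R : Type) [CommRing R] [Algebra K R] (x y t : R),
      F4 (cc p) (x + t * algebraMap K R 0) (y + t * algebraMap K R q₁) 1 = F4 (cc p) x y 1)
    (x : K) : (p 3).eval x * q₁ ^ 3 = 0 := by
  have h1 := cyl_iff p h hq K[X] (C x) 0 X
  simp only [map_zero, mul_zero, add_zero, zero_add, Polynomial.algebraMap_eq, aeval_CX,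
    mul_pow] at h1
  have h2 := congrArg (fun g => coeff g 3) h1
  simp only [coeff_add, coeff_C_mul, ← C_pow, mul_comm (X ^ _ : K[X]), coeff_X_pow, coeff_C,
    coeff_X, mul_comm (X : K[X])] at h2
  norm_num at h2
  rcases h2 with h2 | h2
  · rw [h2, zero_mul]
  · rw [h2]
    ring

/-- invariance under translations: elimination of `x` -/
theorem cyl_elim (c : ℕ → ℕ → K) {q₀ q₁ : K} (h0 : q₀ ≠ 0)
    (hq : ∀ (R : Type) [CommRing R] [Algebra K R] (x y t : R),
      F4 c (x + t * algebraMap K R q₀) (y + t * algebraMap K R q₁) 1 = F4 c x y 1)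
    (R : Type) [CommRing R] [Algebra K R] (x y : R) :
    F4 c x (y + algebraMap K R (q₁ / q₀) * x) 1 = F4 c 0 y 1 := by
  have h1 := hq R 0 y (x * algebraMap K R q₀⁻¹)
  have e1 : (0 : R) + x * algebraMap K R q₀⁻¹ * algebraMap K R q₀ = x := by
    rw [mul_assoc, ← map_mul, inv_mul_cancel₀ h0, map_one, mul_one, zero_add]
  have e2 : y + x * algebraMap K R q₀⁻¹ * algebraMap K R q₁ =
      y + algebraMap K R (q₁ / q₀) * x := by
    rw [div_eq_mul_inv, map_mul]
    ring
  rwa [e1, e2] at h1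

end Pool.Agent.Helper49.CT
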