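import Pool.Agent.Helper49.CT.Cyl

/-!
# Singular points
-/

set_option autoImplicit false

namespace Pool.Agent.Helper49.CT

open Pool.Agent.Helper65.CC Pool.Agent.Helper87.CC Pool.Agent.Helper65.CC.KFn
open Pool.Agent.Helper29.CQ Pool.Agent.Helper71.CT
open Polynomial

variable {K : Type} [Field K] {G : ∀ (R : Type) [CommRing R] [Algebra K R], Prop}

/-- reversal of the coordinate of the line -/
theorem BC_rev [IsAlgClosed K] (hG : GOps K G) (a : Fin 5 → K)
    (H : (BC (bin4 a (X : K[X]) 1)).Mem G) : (BC (bin4 a (1 : K[X]) X)).Mem G := by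
  have h1 := BC.moebius hG a 0 1 1 0 (by norm_num) H
  have e1 : (C 0 * X + C 1 : K[X]) = 1 := by simp
  have e2 : (C 1 * X + C 0 : K[X]) = X := by simp
  rwa [e1, e2] at h1

/-- the curve at infinity in the other coordinate -/
theorem inf_rev [IsAlgClosed K] (hG : GOps K G) (α : K) (a₂ a₄ a₆ : K[X])
    (H : (BC (top α a₂ a₄ a₆)).Mem G) :
    (BC (C α * X + C (a₂.coeff 2) * X ^ 2 + C (a₄.coeff 4) * X ^ 3 +
      C (a₆.coeff 6) * X ^ 4)).Mem G := by
  have h1 := BC_rev hG ![a₆.coeff 6, a₄.coeff 4, a₂.coeff 2, α, 0] (by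
    convert H using 2
    simp [bin4, top]
    ring)
  convert h1 using 2
  simp [bin4]
  ring

/-- the coefficients of the quartic after the blow-up -/
noncomputable def pS (α : K) (a₂ b₄ b₆ : K[X]) : Fin 5 → K[X] := ![b₆, b₄, a₂, C α * X, 0]

theorem pS_deg (α : K) (a₂ b₄ b₆ : K[X]) (d2 : a₂.natDegree ≤ 2) (d4 : b₄.natDegree ≤ 3)
    (d6 : b₆.natDegree ≤ 4) : ∀ j : Fin 5, (pS α a₂ b₄ b₆ j).natDegree ≤ 4 - j := by
  intro j
  fin_cases j
  · exact d6
  · exact d4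
  · exact d2
  · exact (natDegree_C_mul_le _ _).trans natDegree_X_le
  · exact natDegree_zero.le

theorem F4_pS (α : K) (a₂ b₄ b₆ : K[X]) (d2 : a₂.natDegree ≤ 2) (d4 : b₄.natDegree ≤ 3)
    (d6 : b₆.natDegree ≤ 4) {R : Type} [CommRing R] [Algebra K R] (x y : R) :
    F4 (cc (pS α a₂ b₄ b₆)) x y 1 = aeval x b₆ + aeval x b₄ * y + aeval x a₂ * y ^ 2 +
      algebraMap K R α * x * y ^ 3 := by
  rw [F4_cc _ (pS_deg α a₂ b₄ b₆ d2 d4 d6)]
  change aeval x b₆ + aeval x b₄ * y + aeval x a₂ * y ^ 2 + aeval x (C α * X) * y ^ 3 +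
    aeval x (0 : K[X]) * y ^ 4 = _
  rw [map_mul, aeval_C, aeval_X, map_zero]
  ring

theorem pS_cyl (α : K) (hα : α ≠ 0) (a₂ b₄ b₆ : K[X]) (d2 : a₂.natDegree ≤ 2)
    (d4 : b₄.natDegree ≤ 3) (d6 : b₆.natDegree ≤ 4) : ¬ Cyl' (cc (pS α a₂ b₄ b₆)) := by
  rintro ⟨q₀, q₁, hne, hq⟩
  have hd := pS_deg α a₂ b₄ b₆ d2 d4 d6
  have h1 := cyl_three _ hd hq 0
  change (C α * X : K[X]).eval (0 + q₀) + 4 * q₁ * (0 : K[X]).eval (0 + q₀) =
    (C α * X : K[X]).eval 0 at h1
  simp only [eval_mul, eval_C, eval_X, eval_zero, mul_zero, add_zero, zero_add] at h1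
  have h0 : q₀ = 0 := (mul_eq_zero.1 h1).resolve_left hα
  subst h0
  have h2 := cyl_vert _ hd hq 1
  change (C α * X : K[X]).eval 1 * q₁ ^ 3 = 0 at h2
  simp only [eval_mul, eval_C, eval_X, mul_one] at h2
  have h3 : q₁ = 0 := by
    rcases mul_eq_zero.1 h2 with h | h
    · exact absurd h hα
    · exact pow_eq_zero_iff (three_ne_zero) |>.1 h
  rcases hne with h | h
  · exact h rfl
  · exact h h3

/-- **a singular point at the origin** -/
theorem cone_sing0 [IsAlgClosed K] (hG : GOps K G)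
    (geo : ∀ c : ℕ → ℕ → K, (BC (bin4 (lead c) (X : K[X]) 1)).Mem G → ¬ Cyl' c → (V c).Mem G)
    (α : K) (hα : α ≠ 0) (a₂ b₄ b₆ : K[X]) (d2 : a₂.natDegree ≤ 2)
    (d4 : b₄.natDegree ≤ 3) (d6 : b₆.natDegree ≤ 4)
    (hinf : (BC (top α a₂ (X * b₄) (X ^ 2 * b₆))).Mem G) :
    (W α a₂ (X * b₄) (X ^ 2 * b₆)).Mem G := by
  set c := cc (pS α a₂ b₄ b₆) with hc
  have hV : (V c).Mem G := by
    refine geo c ?_ (pS_cyl α hα a₂ b₄ b₆ d2 d4 d6)
    rw [hc, lead_cc]
    convert inf_rev hG _ _ _ _ hinf using 2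
    have e1 : (X ^ 2 * b₆ : K[X]).coeff 6 = b₆.coeff 4 := by
      rw [mul_comm, coeff_mul_X_pow b₆ 2 4]
    have e2 : (X * b₄ : K[X]).coeff 4 = b₄.coeff 3 := by
      rw [coeff_X_mul b₄ 3]
    rw [e1, e2]
    change C ((0 : K[X]).coeff 0) + C ((C α * X : K[X]).coeff 1) * X + C (a₂.coeff 2) * X ^ 2 +
      C (b₄.coeff 3) * X ^ 3 + C (b₆.coeff 4) * X ^ 4 = _
    simp
  let tV : Coord (V c) := ⟨fun x => x.1.1, fun _ _ => rfl⟩
  let tW : Coord (W α a₂ (X * b₄) (X ^ 2 * b₆)) := ⟨fun x => x.1.1, fun _ _ => rfl⟩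
  have hF : ∀ (R : Type) [CommRing R] [Algebra K R] (x y : R), F4 c x y 1 =
      aeval x b₆ + aeval x b₄ * y + aeval x a₂ * y ^ 2 + algebraMap K R α * x * y ^ 3 :=
    fun R _ _ x y => F4_pS α a₂ b₄ b₆ d2 d4 d6 x y
  have hD : ∀ (R : Type) [CommRing R] [Algebra K R] (x y : R),
      Dv α a₂ (X * b₄) (X ^ 2 * b₆) x y = algebraMap K R α * y ^ 3 + aeval x a₂ * y ^ 2 +
        x * aeval x b₄ * y + x ^ 2 * aeval x b₆ := by
    intro R _ _ x y
    simp only [Dv, map_mul, map_pow, aeval_X]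
  -- the fibre of `V` over `0`
  have hV0 : ((V c).cls tV).Mem G := by
    refine Mem.of_iso (F' := BC (C (b₆.eval 0) + C (b₄.eval 0) * X + C (a₂.eval 0) * X ^ 2)) ?_
      (BC.deg_two hG _ (by
        refine natDegree_add_le_of_degree_le (natDegree_add_le_of_degree_le ?_ ?_) ?_
        · exact natDegree_C _ |>.le.trans (Nat.zero_le _)
        · exact (natDegree_C_mul_le _ _).trans (natDegree_X_le.trans one_le_two)
        · exact (natDegree_C_mul_le _ _).trans (natDegree_X_pow_le _)))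
    have key : ∀ (R : Type) [CommRing R] [Algebra K R] (x y u : R), x = 0 →
        u ^ 2 - F4 c x y 1 = u ^ 2 - aeval y (C (b₆.eval 0) + C (b₄.eval 0) * X +
          C (a₂.eval 0) * X ^ 2 : K[X]) := by
      intro R _ _ x y u hx
      rw [hF, hx]
      have e0 : ∀ g : K[X], aeval (0 : R) g = algebraMap K R (g.eval 0) := fun g => by
        rw [← map_zero (algebraMap K R), aeval_algebraMap_apply, coe_aeval_eq_eval]
      simp only [e0, map_add, map_mul, map_pow, aeval_C, aeval_X]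
      ring
    exact
      { hom := fun {R} _ _ x => ⟨(x.1.1.2.1, x.1.1.2.2), (key R _ _ _ x.2).symm.trans x.1.2⟩
        inv := fun {R} _ _ y => ⟨⟨(0, y.1.1, y.1.2), (key R 0 _ _ rfl).trans y.2⟩, rfl⟩
        inv_hom := fun {R} _ _ x => by
          have h5 : x.1.1.1 = 0 := x.2
          exact Subtype.ext (Subtype.ext (Prod.ext h5.symm rfl))
        hom_inv := fun _ => rfl
        nat := fun f x => Subtype.ext rfl }
  -- the fibre of `W` over `0`
  have hW0 : ((W α a₂ (X * b₄) (X ^ 2 * b₆)).cls tW).Mem G := by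
    refine Mem.of_iso (F' := BC (X ^ 2 * (C α * X + C (a₂.eval 0)))) ?_
      (BC.sq_mul hG X X_ne_zero (BC.deg_two hG _ (by
        refine natDegree_add_le_of_degree_le ?_ ?_
        · exact (natDegree_C_mul_le _ _).trans (natDegree_X_le.trans one_le_two)
        · exact natDegree_C _ |>.le.trans (Nat.zero_le _))))
    have key : ∀ (R : Type) [CommRing R] [Algebra K R] (x y u : R), x = 0 →
        u ^ 2 - Dv α a₂ (X * b₄) (X ^ 2 * b₆) x y =
          u ^ 2 - aeval y (X ^ 2 * (C α * X + C (a₂.eval 0)) : K[X]) := by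
      intro R _ _ x y u hx
      rw [hD, hx]
      have e0 : ∀ g : K[X], aeval (0 : R) g = algebraMap K R (g.eval 0) := fun g => by
        rw [← map_zero (algebraMap K R), aeval_algebraMap_apply, coe_aeval_eq_eval]
      simp only [e0, map_add, map_mul, map_pow, aeval_C, aeval_X]
      ring
    exact
      { hom := fun {R} _ _ x => ⟨(x.1.1.2.1, x.1.1.2.2), (key R _ _ _ x.2).symm.trans x.1.2⟩
        inv := fun {R} _ _ y => ⟨⟨(0, y.1.1, y.1.2), (key R 0 _ _ rfl).trans y.2⟩, rfl⟩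
        inv_hom := fun {R} _ _ x => by
          have h5 : x.1.1.1 = 0 := x.2
          exact Subtype.ext (Subtype.ext (Prod.ext h5.symm rfl))
        hom_inv := fun _ => rfl
        nat := fun f x => Subtype.ext rfl }
  refine Mem.glue hG.toKOps tW ?_ hW0
  refine Mem.of_iso ?_ (mem_opn hG.toKOps tV hV hV0)
  exact
    { hom := fun {R} _ _ x => ⟨⟨(x.1.1.1, Ring.inverse x.1.1.1 * x.1.1.2.1,
          Ring.inverse x.1.1.1 * x.1.1.2.2), by
          have h5 : IsUnit x.1.1.1 := x.2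
          have h6 := mul_inv' h5
          have h7 : x.1.1.2.2 ^ 2 - Dv α a₂ (X * b₄) (X ^ 2 * b₆) x.1.1.1 x.1.1.2.1 = 0 := x.1.2
          rw [hD] at h7
          change (Ring.inverse x.1.1.1 * x.1.1.2.2) ^ 2 -
            F4 c x.1.1.1 (Ring.inverse x.1.1.1 * x.1.1.2.1) 1 = 0
          rw [hF]
          set w := Ring.inverse x.1.1.1
          linear_combination w ^ 2 * h7 + (aeval x.1.1.1 b₆ * (x.1.1.1 * w + 1) +
            aeval x.1.1.1 b₄ * x.1.1.2.1 * w - algebraMap K R α * x.1.1.2.1 ^ 3 * w ^ 2) * h6⟩,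
          x.2⟩
      inv := fun {R} _ _ y => ⟨⟨(y.1.1.1, y.1.1.1 * y.1.1.2.1, y.1.1.1 * y.1.1.2.2), by
          have h7 : y.1.1.2.2 ^ 2 - F4 c y.1.1.1 y.1.1.2.1 1 = 0 := y.1.2
          rw [hF] at h7
          change (y.1.1.1 * y.1.1.2.2) ^ 2 - Dv α a₂ (X * b₄) (X ^ 2 * b₆) y.1.1.1
            (y.1.1.1 * y.1.1.2.1) = 0
          rw [hD]
          linear_combination y.1.1.1 ^ 2 * h7⟩, y.2⟩
      inv_hom := fun {R} _ _ x => by
        have h5 : IsUnit x.1.1.1 := x.2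
        have h6 := mul_inv' h5
        refine Subtype.ext (Subtype.ext (Prod.ext rfl (Prod.ext ?_ ?_)))
        · change x.1.1.1 * (Ring.inverse x.1.1.1 * x.1.1.2.1) = x.1.1.2.1
          rw [← mul_assoc, h6, one_mul]
        · change x.1.1.1 * (Ring.inverse x.1.1.1 * x.1.1.2.2) = x.1.1.2.2
          rw [← mul_assoc, h6, one_mul]
      hom_inv := fun {R} _ _ y => by
        have h5 : IsUnit y.1.1.1 := y.2
        have h6 := Ring.inverse_mul_cancel _ h5
        refine Subtype.ext (Subtype.ext (Prod.ext rfl (Prod.ext ?_ ?_)))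
        · change Ring.inverse y.1.1.1 * (y.1.1.1 * y.1.1.2.1) = y.1.1.2.1
          rw [← mul_assoc, h6, one_mul]
        · change Ring.inverse y.1.1.1 * (y.1.1.1 * y.1.1.2.2) = y.1.1.2.2
          rw [← mul_assoc, h6, one_mul]
      nat := fun {R S} _ _ _ _ f x => by
        have h5 : IsUnit x.1.1.1 := x.2
        refine Subtype.ext (Subtype.ext (Prod.ext rfl (Prod.ext ?_ ?_)))
        · change f (Ring.inverse x.1.1.1 * x.1.1.2.1) = Ring.inverse (f x.1.1.1) * f x.1.1.2.1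
          rw [map_mul, inv_nat f h5]
        · change f (Ring.inverse x.1.1.1 * x.1.1.2.2) = Ring.inverse (f x.1.1.1) * f x.1.1.2.2
          rw [map_mul, inv_nat f h5] }

end Pool.Agent.Helper49.CT
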