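import Pool.Agent.Helper49.CT.Cone

/-!
# The case `α = 0`
-/

set_option autoImplicit false

namespace Pool.Agent.Helper49.CT

open Pool.Agent.Helper65.CC Pool.Agent.Helper87.CC Pool.Agent.Helper65.CC.KFn
open Pool.Agent.Helper29.CQ Pool.Agent.Helper71.CT
open Polynomial

variable {K : Type} [Field K] {G : ∀ (R : Type) [CommRing R] [Algebra K R], Prop}

/-- the conic bundle -/
noncomputable def toCB (a₂ a₄ a₆ : K[X]) :
    Iso (W 0 a₂ a₄ a₆) (CBf ![a₂, 0, -1, a₄, 0, a₆]) where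
  hom {R} _ _ x := ⟨x.1, by
    have h : x.1.2.2 ^ 2 - Dv 0 a₂ a₄ a₆ x.1.1 x.1.2.1 = 0 := x.2
    change con (aeval x.1.1 a₂) (aeval x.1.1 (0 : K[X])) (aeval x.1.1 (-1 : K[X]))
      (aeval x.1.1 a₄) (aeval x.1.1 (0 : K[X])) (aeval x.1.1 a₆) x.1.2.1 x.1.2.2 = 0
    unfold Dv at h
    unfold con
    rw [map_zero, map_neg, map_one]
    rw [map_zero] at h
    linear_combination -h⟩
  inv {R} _ _ x := ⟨x.1, by
    have h : con (aeval x.1.1 a₂) (aeval x.1.1 (0 : K[X])) (aeval x.1.1 (-1 : K[X]))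
      (aeval x.1.1 a₄) (aeval x.1.1 (0 : K[X])) (aeval x.1.1 a₆) x.1.2.1 x.1.2.2 = 0 := x.2
    change x.1.2.2 ^ 2 - Dv 0 a₂ a₄ a₆ x.1.1 x.1.2.1 = 0
    unfold Dv
    unfold con at h
    rw [map_zero, map_neg, map_one] at h
    rw [map_zero]
    linear_combination -h⟩
  inv_hom _ := rfl
  hom_inv _ := rfl
  nat _ _ := rfl

/-- **the case `α = 0`** -/
theorem cone_zero [IsAlgClosed K] (hG : GOps K G) (h2 : (2 : K) ≠ 0) (a₂ a₄ a₆ : K[X])
    (hd : a₂.natDegree ≤ 2) (h0 : a₂ ≠ 0 ∨ a₄ ≠ 0) : (W 0 a₂ a₄ a₆).Mem G := by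
  refine Mem.of_iso (toCB a₂ a₄ a₆) ?_
  by_cases h : a₂ = 0
  · subst h
    have h4 : a₄ ≠ 0 := h0.resolve_left (fun h => h rfl)
    refine mem_fibres hG.toKOps _ _ (CBf.t _) a₄ h4 rfl (CBf.fib hG _) ?_
    let u : Coord (A2 K) := ⟨fun {R} _ _ x => aeval (show R from x.1) a₄, fun f x => by
      rw [← aeval_algHom_apply]
      rfl⟩
    have h1 : ((A2 K).opn u).Mem G := by
      let t : Coord (A2 K) := ⟨fun x => x.1, fun _ _ => rfl⟩
      refine mem_opn_poly hG.toKOps (A2 K) t a₄ h4 (mem_A2 hG) fun a => ?_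
      refine Mem.of_iso (F' := A1 K) ?_ (mem_A1 hG)
      exact
        { hom := fun x => x.1.2
          inv := fun {R} _ _ y => ⟨(algebraMap K R a, y), sub_self _⟩
          inv_hom := fun {R} _ _ x => by
            have h5 : x.1.1 - algebraMap K R a = 0 := x.2
            exact Subtype.ext (Prod.ext (sub_eq_zero.1 h5).symm rfl)
          hom_inv := fun _ => rfl
          nat := fun _ _ => rfl }
    refine Mem.of_iso ?_ h1
    have key : ∀ (R : Type) [CommRing R] [Algebra K R] (x y z : R),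
        con (aeval x (0 : K[X])) (aeval x (0 : K[X])) (aeval x (-1 : K[X])) (aeval x a₄)
          (aeval x (0 : K[X])) (aeval x a₆) y z = aeval x a₄ * y - (z ^ 2 - aeval x a₆) := by
      intro R _ _ x y z
      simp only [con, map_zero, map_neg, map_one]
      ring
    exact
      { hom := fun x => ⟨(x.1.1.1, x.1.1.2.2), x.2⟩
        inv := fun {R} _ _ y => ⟨⟨(y.1.1, (y.1.2 ^ 2 - aeval y.1.1 a₆) *
            Ring.inverse (aeval y.1.1 a₄), y.1.2), by
          have h5 : IsUnit (aeval y.1.1 a₄) := y.2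
          have h6 := mul_inv' h5
          change con (aeval y.1.1 (0 : K[X])) (aeval y.1.1 (0 : K[X])) (aeval y.1.1 (-1 : K[X]))
            (aeval y.1.1 a₄) (aeval y.1.1 (0 : K[X])) (aeval y.1.1 a₆)
            ((y.1.2 ^ 2 - aeval y.1.1 a₆) * Ring.inverse (aeval y.1.1 a₄)) y.1.2 = 0
          rw [key]
          linear_combination (y.1.2 ^ 2 - aeval y.1.1 a₆) * h6⟩, y.2⟩
        inv_hom := fun {R} _ _ x => by
          have h5 : IsUnit (aeval x.1.1.1 a₄) := x.2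
          have h6 := mul_inv' h5
          have h7 : con (aeval x.1.1.1 (0 : K[X])) (aeval x.1.1.1 (0 : K[X]))
            (aeval x.1.1.1 (-1 : K[X])) (aeval x.1.1.1 a₄) (aeval x.1.1.1 (0 : K[X]))
            (aeval x.1.1.1 a₆) x.1.1.2.1 x.1.1.2.2 = 0 := x.1.2
          rw [key] at h7
          refine Subtype.ext (Subtype.ext (Prod.ext rfl (Prod.ext ?_ rfl)))
          change (x.1.1.2.2 ^ 2 - aeval x.1.1.1 a₆) * Ring.inverse (aeval x.1.1.1 a₄) = x.1.1.2.1
          linear_combination x.1.1.2.1 * h6 - Ring.inverse (aeval x.1.1.1 a₄) * h7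
        hom_inv := fun _ => rfl
        nat := fun _ _ => rfl }
  · have e1 : (![a₂, 0, -1, a₄, 0, a₆] : Fin 6 → K[X]) 1 ^ 2 -
        4 * (![a₂, 0, -1, a₄, 0, a₆] : Fin 6 → K[X]) 0 *
          (![a₂, 0, -1, a₄, 0, a₆] : Fin 6 → K[X]) 2 = C 4 * a₂ := by
      change (0 : K[X]) ^ 2 - 4 * a₂ * (-1) = C 4 * a₂
      rw [map_ofNat]
      ring
    have h4 : (4 : K) ≠ 0 := by
      have : (4 : K) = 2 * 2 := by norm_num
      rw [this]
      exact mul_ne_zero h2 h2
    refine CBf.mem hG h2 _ ?_ ?_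
    · rw [e1]
      exact mul_ne_zero (C_ne_zero.2 h4) h
    · rw [e1]
      exact BC.smul 4 h4 (BC.deg_two hG a₂ hd)

end Pool.Agent.Helper49.CT
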